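import Pool.Agent.H78.GX.H78.GS.TA3

set_option autoImplicit false

open Finset Pool.Agent.H6.N4D Pool.Agent.H78.GX.H6.N4D Pool.Agent.H78.GX

namespace Pool.Agent.H78.GX.H30.GS3

open Pool.Agent.H78.GX.H78.GS

/-- the distance of the composed displacement -/
private theorem cmp_ds (S : Par) (e₁ ν ν' c c' : ℝ) (θ : ℤ → ℕ → ℝ) (D D' : ℕ) (t : ℤ)
    (j i i' : ℕ) (hh : 0 < S.h) (hr : 0 < S.rho) (he : 0 < e₁)
    (h1 : ds S e₁ θ D c t j i ≤ ν) (h2 : ds S e₁ θ D' c' (t + D) i i' ≤ ν') :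
    ds S e₁ θ (D + D') (c + Real.exp (-(S.h * D)) * c') t j i' ≤ ν + ν' := by
  unfold ds at h1 h2 ⊢
  have hx : 0 < S.x t := Par.x_pos t
  have hx' : S.x (t + (D : ℤ)) = S.x t * Real.exp (S.h * D) := by
    rw [Par.x_add]; push_cast; rfl
  have hxle : S.x t ≤ S.x (t + (D : ℤ)) := Par.x_mono hh (by omega)
  have e1 : t + ((D + D' : ℕ) : ℤ) = t + (D : ℤ) + (D' : ℤ) := by push_cast; ring
  rw [e1]
  set A := θ (t + (D : ℤ) + (D' : ℤ)) i' with hA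
  set B := θ (t + (D : ℤ)) i with hB
  set C := θ t j with hC
  have e2 : c' / S.x (t + (D : ℤ)) = Real.exp (-(S.h * D)) * c' / S.x t := by
    rw [hx', Real.exp_neg]
    have := Real.exp_pos (S.h * D)
    field_simp
  have e3 : A - C - (c + Real.exp (-(S.h * D)) * c') / S.x t =
      (B - C - c / S.x t) + (A - B - c' / S.x (t + (D : ℤ))) := by
    rw [e2]; ring
  have h3 : nd (A - C - (c + Real.exp (-(S.h * D)) * c') / S.x t) ≤
      nd (B - C - c / S.x t) + nd (A - B - c' / S.x (t + (D : ℤ))) := by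
    rw [e3]; exact nd_add_le _ _
  have h4 : S.rho * S.x t / e₁ * nd (A - B - c' / S.x (t + (D : ℤ))) ≤
      S.rho * S.x (t + (D : ℤ)) / e₁ * nd (A - B - c' / S.x (t + (D : ℤ))) := by
    refine mul_le_mul_of_nonneg_right ?_ (nd_nonneg _)
    refine div_le_div_of_nonneg_right ?_ he.le
    exact mul_le_mul_of_nonneg_left hxle hr.le
  have h5 : 0 ≤ S.rho * S.x t / e₁ := by positivity
  have h6 := mul_le_mul_of_nonneg_left h3 h5
  rw [mul_add] at h6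
  linarith

theorem pf_CMP : T_CMP := by
  intro S e₁ κ κ' ν ν' c c' θ F D D' hok hN he hν hν' h1 h2
  unfold Hit at h1 h2 ⊢
  have key : S.cnt (fun t => ∃ j ∈ F t, ∀ i ∈ F (t + ((D + D' : ℕ) : ℤ)),
      ν + ν' < ds S e₁ θ (D + D') (c + Real.exp (-(S.h * D)) * c') t j i) ≤
      S.cnt (fun t => ∃ j ∈ F t, ∀ i ∈ F (t + (D : ℤ)), ν < ds S e₁ θ D c t j i) +
      (S.cnt (fun t => t + (D : ℤ) ∉ S.I) +
      S.cnt (fun t => t + (D : ℤ) ∈ S.I ∧
        ∃ j ∈ F (t + (D : ℤ)), ∀ i ∈ F (t + (D : ℤ) + (D' : ℤ)),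
          ν' < ds S e₁ θ D' c' (t + (D : ℤ)) j i)) := by
    refine (Par.cnt_le_add (F := fun t => ∃ j ∈ F t, ∀ i ∈ F (t + (D : ℤ)),
      ν < ds S e₁ θ D c t j i) (G := fun t => t + (D : ℤ) ∉ S.I ∨ (t + (D : ℤ) ∈ S.I ∧
        ∃ j ∈ F (t + (D : ℤ)), ∀ i ∈ F (t + (D : ℤ) + (D' : ℤ)),
          ν' < ds S e₁ θ D' c' (t + (D : ℤ)) j i)) ?_).trans ?_
    · rintro t - ⟨j, hj, hbad⟩
      by_contra hcon
      push Not at hcon
      obtain ⟨ha, hb, hc⟩ := hcon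
      obtain ⟨i, hi, hi2⟩ := ha j hj
      obtain ⟨i', hi', hi2'⟩ := hc hb i hi
      have hi'' : i' ∈ F (t + ((D + D' : ℕ) : ℤ)) := by
        have e1 : t + ((D + D' : ℕ) : ℤ) = t + (D : ℤ) + (D' : ℤ) := by push_cast; ring
        rw [e1]; exact hi'
      have := hbad i' hi''
      exact absurd (cmp_ds S e₁ ν ν' c c' θ D D' t j i i' hok.hh hok.hr0 he hi2 hi2')
        (not_le.2 this)
    · have := Par.cnt_or (S := S) (fun t => t + (D : ℤ) ∉ S.I) (fun t => t + (D : ℤ) ∈ S.I ∧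
        ∃ j ∈ F (t + (D : ℤ)), ∀ i ∈ F (t + (D : ℤ) + (D' : ℤ)),
          ν' < ds S e₁ θ D' c' (t + (D : ℤ)) j i)
      linarith
  have h3 : S.cnt (fun t => t + (D : ℤ) ∉ S.I) ≤ D := by
    have := Par.cnt_out (S := S) (D : ℤ)
    have e : |((D : ℤ) : ℝ)| = D := by push_cast; exact abs_of_nonneg (Nat.cast_nonneg _)
    rwa [e] at this
  have h4 := (Par.cnt_shift (S := S) (fun s => ∃ j ∈ F s, ∀ i ∈ F (s + (D' : ℤ)),
          ν' < ds S e₁ θ D' c' s j i) (D : ℤ))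
  have h5 : (κ + κ' + D / S.N) * S.N = κ * S.N + κ' * S.N + D := by
    field_simp
  rw [h5]
  linarith

end Pool.Agent.H78.GX.H30.GS3
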